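import Pool.Agent.K3h49.Leo.Main
import Pool.Agent.K3h49.Leo.Count4

/-!
# The orderings of the eigenvalue sequence of a real Leonard system

For a Leonard system over `ℝ` of diameter `d` with the eigenvalue sequence `θ_0, …, θ_d`, let `σ` be
the permutation of `0, …, d` with `θ_(σ 0) > θ_(σ 1) > … > θ_(σ d)`.  We determine all
permutations that occur, and their number.

**(1)** `σ` occurs if and only if
* `σ` arranges the numbers `0, …, d` by decreasing values of `cos (a i + b)` for some real `a`, `b`
  (with pairwise different values), or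
* for some `m` with `1 ≤ m ≤ d - 2` and some sign `ε`, `σ` arranges the numbers by decreasing values
  of `ε (-1)^i |i - m - 1/2|`: first the numbers of one parity by decreasing distance from
  `m + 1/2`, then the numbers of the other parity by increasing distance from `m + 1/2`.

**(2)** For `d ≥ 2` the number of these permutations is
`(d + 1) Φ(d) + Φ(d + 1) + … + Φ(2 d - 2) + 2 (d - 2)`, where `Φ(N) = φ(1) + … + φ(N)` is the summatory
function of Euler's function; the first family has
`(d + 1) Φ(d) + Φ(d + 1) + … + Φ(2 d - 2)` members, and the second one `2 (d - 2)` further ones.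

Proof.  From the two eigenbases one gets a relation `z_i = P(θ_i)` with a cubic polynomial `P`, hence
a three-term recurrence for `θ_i` (Terwilliger), and the orderings of all its injective solutions
are found by cases.  Conversely, for `θ_i = cos (φ i + ψ)` with complex `φ`, `ψ` a Leonard
system is given by a tridiagonal matrix with zero diagonal and dual eigenvalues `θ_i - θ_(d-i)`; it
preserves the degree of polynomials in `θ`.  The orderings by cosines correspond to the cells of an
arrangement of lines `α r = m`, `α s + z = m`, which are counted by adding the lines one after another.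
-/

set_option autoImplicit false

namespace Pool.Agent.Results.MP_74fd1e_al.EigenvalueOrderings

open Pool.Agent.K3h49.Leo

/-- the permutations `σ = σ_Φ` of the Leonard systems `Φ` on `V`, `dim V = d + 1` -/
def attained (d : ℕ) (V : Type*) [AddCommGroup V] [Module ℝ V] :
    Set (Equiv.Perm (Fin (d + 1))) :=
  {σ | ∃ Φ : LeonardSystem d V, StrictAnti fun k => Φ.θ (σ k)}

/-- the permutations which arrange `0, …, d` by decreasing values of a sequence of cosines -/
def cosineOrders (d : ℕ) : Set (Equiv.Perm (Fin (d + 1))) :=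
  {σ | ∃ a b : ℝ, StrictAnti fun k => Real.cos (a * ((σ k : ℕ) : ℝ) + b)}

/-- the permutations which arrange `0, …, d` by decreasing values of `ε (-1)^i |i - m - 1/2|` for some
`1 ≤ m ≤ d - 2` and some sign `ε` -/
def alternatingOrders (d : ℕ) : Set (Equiv.Perm (Fin (d + 1))) :=
  {σ | ∃ (m : ℕ) (ε : ℝ), 1 ≤ m ∧ m + 2 ≤ d ∧ (ε = 1 ∨ ε = -1) ∧
    StrictAnti fun k => ε * ((-1) ^ (σ k : ℕ) * |((σ k : ℕ) : ℝ) - m - 1 / 2|)}

theorem model_same (d m : ℕ) {ε : ℝ} (hε : ε = 1 ∨ ε = -1) :
    SameOrder d (hs (ε, m)) (fun i => ε * ((-1) ^ i * |(i : ℝ) - m - 1 / 2|)) := by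
  refine same_alt (fun i _ => Real.cosh_pos _) (fun i _ => ?_) hε ?_
  · rw [abs_pos]
    intro h
    have h1 : ((2 * i - 2 * m - 1 : ℤ) : ℝ) = 0 := by push_cast; linarith
    have h2 : (2 * i - 2 * m - 1 : ℤ) = 0 := by exact_mod_cast h1
    omega
  · intro i j _ _ _
    rw [Real.cosh_lt_cosh]
    have e : ∀ i : ℕ, (1 : ℝ) * i + -((((ε, m) : ℝ × ℕ).2 : ℝ) + 1 / 2) = (i : ℝ) - m - 1 / 2 := by
      intro i; simp only; ring
    rw [e, e]

theorem alternating_eq (d : ℕ) : alternatingOrders d = eta d '' R d := by
  ext σ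
  constructor
  · rintro ⟨m, ε, hm, hm', hε, h⟩
    have hR : (ε, m) ∈ R d := ⟨by simpa using hε, by omega, by omega⟩
    refine ⟨(ε, m), hR, ?_⟩
    apply perm_unique (f := fun i : Fin (d + 1) => hs (ε, m) i) (eta_spec hR)
    intro k l hkl
    exact ((model_same d m hε) _ _ (by omega) (by omega)).2 (h hkl)
  · rintro ⟨⟨ε, m⟩, hR, rfl⟩
    have hε : ε = 1 ∨ ε = -1 := by have := hR.1; simpa using this
    have hm : 1 ≤ m ∧ m ≤ d - 2 := hR.2
    refine ⟨m, ε, hm.1, by omega, hε, ?_⟩
    intro k l hkl
    exact ((model_same d m hε) _ _ (by omega) (by omega)).1 (eta_spec hR hkl)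

theorem attained_eq (d : ℕ) (V : Type*) [AddCommGroup V] [Module ℝ V]
    (hV : Module.finrank ℝ V = d + 1) : attained d V = cosineOrders d ∪ alternatingOrders d := by
  have h1 : attained d V = Tset d ∪ Hset d := by
    ext σ
    exact main d hV σ
  have h2 : cosineOrders d = Tset d := rfl
  rw [h1, h2, alternating_eq]
  by_cases hd : 2 ≤ d
  · rw [← Hset_diff d hd, Set.union_sdiff_self]
  · have hR : R d = ∅ := by
      rw [R, show (Set.Icc 1 (d - 2) : Set ℕ) = ∅ from Set.Icc_eq_empty (by omega), Set.prod_empty]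
    rw [hR, Set.image_empty, Set.union_empty, Set.union_eq_left]
    rintro σ ⟨a, b, ε, -, h⟩
    set x : ℕ → ℝ := fun i => ε * ((-1) ^ i * Real.cosh (a * i + b)) with hx
    have hT : TypeT d x := by
      have hinj : ∀ i j : ℕ, i ≤ d → j ≤ d → x i = x j → i = j := by
        intro i j hi hj hij
        have h2 := h.injective (a₁ := σ.symm ⟨i, by omega⟩) (a₂ := σ.symm ⟨j, by omega⟩) (by
          simp only [Equiv.apply_symm_apply]
          exact hij)
        have h3 := σ.symm.injective h2
        exact congrArg Fin.val h3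
      rcases lt_or_ge (x 0) (x 1) with h1 | h1
      · refine typeT_of_strictMono d x fun i j hij hj => ?_
        have : i = 0 ∧ j = 1 := by omega
        rw [this.1, this.2]; exact h1
      · refine typeT_of_strictAnti d x fun i j hij hj => ?_
        have h2 : i = 0 ∧ j = 1 := by omega
        rw [h2.1, h2.2]
        refine lt_of_le_of_ne h1 fun h3 => ?_
        have := hinj 1 0 (by omega) (by omega) h3
        omega
    obtain ⟨a', b', h'⟩ := hT
    exact ⟨a', b', fun k l hkl => (h' _ _ (by omega) (by omega)).1 (h hkl)⟩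

/-- **The orderings of the eigenvalue sequence of a Leonard system over `ℝ`.**
For every `d` and every real vector space `V` of dimension `d + 1`:
(1) a permutation of `0, …, d` is the ordering of the eigenvalue sequence of a Leonard system on `V`
if and only if it is the decreasing order of `cos (a i + b)` for some real `a`, `b`, or of
`ε (-1)^i |i - m - 1/2|` for some `1 ≤ m ≤ d - 2` and `ε = ± 1`;
(2) for `d ≥ 2` the first kind has `(d + 1) Φ(d) + Φ(d + 1) + … + Φ(2 d - 2)` members, the second kind
has `2 (d - 2)` members, and the two kinds are disjoint, so that the number of all orderings is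
`(d + 1) Φ(d) + Φ(d + 1) + … + Φ(2 d - 2) + 2 (d - 2)`. -/
theorem result (d : ℕ) (V : Type*) [AddCommGroup V] [Module ℝ V]
    (hV : Module.finrank ℝ V = d + 1) :
    (∀ σ : Equiv.Perm (Fin (d + 1)),
      (∃ Φ : LeonardSystem d V, StrictAnti fun k => Φ.θ (σ k)) ↔
        (∃ a b : ℝ, StrictAnti fun k => Real.cos (a * ((σ k : ℕ) : ℝ) + b)) ∨
        (∃ (m : ℕ) (ε : ℝ), 1 ≤ m ∧ m + 2 ≤ d ∧ (ε = 1 ∨ ε = -1) ∧
          StrictAnti fun k => ε * ((-1) ^ (σ k : ℕ) * |((σ k : ℕ) : ℝ) - m - 1 / 2|))) ∧
    (2 ≤ d → (cosineOrders d).ncard = (d + 1) * Phi d + ∑ N ∈ Finset.Icc (d + 1) (2 * d - 2), Phi N ∧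
      (alternatingOrders d).ncard = 2 * (d - 2) ∧ Disjoint (cosineOrders d) (alternatingOrders d) ∧
      (attained d V).ncard =
        (d + 1) * Phi d + ∑ N ∈ Finset.Icc (d + 1) (2 * d - 2), Phi N + 2 * (d - 2)) := by
  have h0 := attained_eq d V hV
  refine ⟨fun σ => ?_, fun hd => ⟨?_, ?_, ?_, ?_⟩⟩
  · have h1 : σ ∈ attained d V ↔ σ ∈ cosineOrders d ∪ alternatingOrders d := by rw [h0]
    exact h1
  · have h1 : (cosineOrders d).encard = _ := (Tset_encard d hd).trans (two_P_formula d hd)
    rw [Set.ncard, h1]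
    rfl
  · have h1 : (alternatingOrders d).encard = ((2 * (d - 2) : ℕ) : ℕ∞) := by
      rw [alternating_eq, ← Hset_diff d hd, Hset_encard d hd]
    rw [Set.ncard, h1]
    rfl
  · rw [alternating_eq, ← Hset_diff d hd]
    exact Set.disjoint_sdiff_right
  · rw [h0, alternating_eq, ← Hset_diff d hd]
    have h1 : (cosineOrders d ∪ Hset d \ Tset d).encard =
        (((d + 1) * Phi d + ∑ N ∈ Finset.Icc (d + 1) (2 * d - 2), Phi N + 2 * (d - 2) : ℕ) :
          ℕ∞) := by
      have h2 : cosineOrders d = Tset d := rfl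
      rw [h2, Set.union_sdiff_self]
      exact total_encard d hd
    rw [Set.ncard, h1]
    rfl

end Pool.Agent.Results.MP_74fd1e_al.EigenvalueOrderings
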